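import Pool.Agent.N119.PS.Stm

set_option autoImplicit false

namespace Pool.Agent.N921.PSC.FIN

open Pool.Agent.H472R3 Pool.Agent.H67R3.FSR Pool.Agent.H67R4.SR Pool.Agent.N119.PS

variable {N : ℕ}

theorem summable_list {α : Type*} [Fintype α] {r : ℝ} (h0 : 0 ≤ r)
    (h1 : (Fintype.card α : ℝ) * r < 1) : Summable fun l : List α => r ^ l.length := by
  rw [← List.equivSigmaTuple.symm.summable_iff]
  rw [summable_sigma_of_nonneg (fun x => by simp only [Function.comp]; positivity)]
  refine ⟨fun n => (hasSum_fintype _).summable, ?_⟩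
  have h2 : Summable fun n : ℕ => ((Fintype.card α : ℝ) * r) ^ n :=
    summable_geometric_of_lt_one (by positivity) h1
  refine h2.congr fun n => ?_
  rw [tsum_fintype]
  simp only [Function.comp, List.equivSigmaTuple, Equiv.coe_fn_symm_mk, List.length_ofFn,
    Finset.sum_const, Finset.card_univ, Fintype.card_pi, Finset.prod_const, Fintype.card_fin]
  rw [nsmul_eq_mul, mul_pow]
  push_cast
  rfl

theorem summable_norm {r : ℝ} (h0 : 0 ≤ r) (h1 : (Fintype.card (Fin N × Bool) : ℝ) * r < 1) :
    Summable fun g : FreeGroup (Fin N) => r ^ g.norm :=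
  (summable_list (α := Fin N × Bool) h0 h1).comp_injective FreeGroup.toWord_injective

theorem t (h : S_LOW) : S_FIN := by
  intro N A hA
  obtain ⟨x0⟩ := A.isRTree.nonempty
  obtain ⟨ε, c, hε, hlow⟩ := h N A hA x0
  have hne : {s : ℝ | 0 ≤ s ∧ ∀ x : A.T, Summable fun g : FreeGroup (Fin N) =>
      Real.exp (-s * dist x (g • x))}.Nonempty := by
    set K : ℝ := (Fintype.card (Fin N × Bool) : ℝ) + 1 with hK
    have hK1 : 1 ≤ K := by rw [hK]; linarith [(Nat.cast_nonneg (Fintype.card (Fin N × Bool)) : (0:ℝ) ≤ _)]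
    have hK0 : 0 < K := by linarith
    set s : ℝ := Real.log K / ε with hs
    have hs0 : 0 ≤ s := div_nonneg (Real.log_nonneg hK1) hε.le
    refine ⟨s, hs0, fun x => ?_⟩
    have hr : Real.exp (-(s * ε)) = K⁻¹ := by
      rw [hs, div_mul_cancel₀ _ hε.ne', Real.exp_neg, Real.exp_log hK0]
    have h3 : Summable fun g : FreeGroup (Fin N) => K⁻¹ ^ g.norm := by
      apply summable_norm (by positivity)
      rw [← div_eq_mul_inv, div_lt_one hK0]
      rw [hK]; linarith
    have h4 := h3.mul_left (Real.exp (s * (c + 2 * dist x x0)))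
    refine Summable.of_nonneg_of_le (fun g => (Real.exp_pos _).le) (fun g => ?_) h4
    rw [← hr, ← Real.exp_nat_mul, ← Real.exp_add]
    apply Real.exp_le_exp.2
    have h5 := hlow g
    rw [lenFn_L] at h5
    have h6 : dist x0 (g • x0) ≤ dist x (g • x) + 2 * dist x x0 := by
      have a1 := dist_triangle4 x0 x (g • x) (g • x0)
      rw [A.isometric g x x0, dist_comm x0 x] at a1
      linarith
    have h7 : ε * g.norm ≤ dist x (g • x) + 2 * dist x x0 + c := by linarith
    have h8 := mul_le_mul_of_nonneg_left h7 hs0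
    linarith
  refine ⟨hne, fun x s hs => ?_⟩
  obtain ⟨s', ⟨h0', hs'⟩, hlt⟩ := exists_lt_of_csInf_lt hne hs
  refine Summable.of_nonneg_of_le (fun g => (Real.exp_pos _).le) (fun g => ?_) (hs' x)
  apply Real.exp_le_exp.2
  rw [lenFn_L]
  have h1 : (0:ℝ) ≤ dist x (g • x) := dist_nonneg
  nlinarith [mul_le_mul_of_nonneg_right hlt.le h1]

end Pool.Agent.N921.PSC.FIN
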