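import Pool.Agent.N119.PS.Stm2

set_option autoImplicit false

/-!
# The product formula for the masses of cylinders of a Patterson-Sullivan current
-/

namespace Pool.Agent.N921.PSC.FRM

open Pool.Agent.H472R3 Pool.Agent.H67R3.FSR Pool.Agent.H67R4.SR Pool.Agent.N119.PS
open MeasureTheory Topology Filter
open scoped ENNReal NNReal

variable {N : ℕ}

instance : Countable (FreeGroup (Fin N)) :=
  Function.Injective.countable (f := fun g : FreeGroup (Fin N) => g.toWord)
    FreeGroup.toWord_injective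

instance : SecondCountableTopology (Lt N) :=
  DiscreteTopology.secondCountableTopology_of_countable

instance : SecondCountableTopology (Bd N) := by
  have h : Topology.IsInducing (fun ξ : Bd N => ξ.1) := Topology.IsInducing.subtypeVal
  exact h.secondCountableTopology

/-- The inclusion of the pairs of distinct ends is a measurable embedding. -/
theorem emb : MeasurableEmbedding (fun q : Bd2 N => q.1) := by
  apply Topology.IsOpenEmbedding.measurableEmbedding
  refine ⟨Topology.IsEmbedding.subtypeVal, ?_⟩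
  have : Set.range (fun q : Bd2 N => q.1) = {p : Bd N × Bd N | p.1 ≠ p.2} :=
    Subtype.range_coe_subtype
  rw [this]
  exact isOpen_ne_fun continuous_fst continuous_snd

/-- The ends which do not start with the first letter of `u`. -/
def H (u : FreeGroup (Fin N)) : Set (Bd N) := {ξ | u.toWord.head? ≠ some (ξ.1 1)}

/-- The ends whose ray passes through `u`. -/
def R (u : FreeGroup (Fin N)) : Set (Bd N) := {ζ | ray ζ u.norm = u}

theorem continuous_locally {α : Type*} [TopologicalSpace α] (f : Bd N → α)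
    (h : ∀ ξ, ∀ᶠ ζ in 𝓝 ξ, f ζ = f ξ) : Continuous f := by
  rw [continuous_iff_continuousAt]
  intro ξ
  exact tendsto_const_nhds.congr' ((h ξ).mono fun _ h => h.symm)

theorem isOpen_H (u : FreeGroup (Fin N)) : IsOpen (H u) := by
  have : H u = (fun ξ : Bd N => ξ.1 1) ⁻¹' {a : Lt N | u.toWord.head? ≠ some a} := rfl
  rw [this]
  exact (continuous_eval (N := N) 1).isOpen_preimage _ (isOpen_discrete _)

theorem isOpen_R (u : FreeGroup (Fin N)) : IsOpen (R u) := by
  rw [isOpen_iff_mem_nhds]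
  intro ξ hξ
  have hξ' : ray ξ u.norm = u := hξ
  filter_upwards [ray_locally ξ u.norm] with ζ hζ
  change ray ζ u.norm = u
  rw [hζ, hξ']

/-- a reduced product with a ray -/
theorem red_ray (ξ : Bd N) (u : FreeGroup (Fin N)) (hξ : ξ ∈ H u) (n : ℕ) :
    FreeGroup.IsReduced (((ray ξ n)⁻¹).toWord ++ u.toWord) := by
  rcases n with _ | n
  · rw [ray, inv_one, FreeGroup.toWord_one, List.nil_append]
    exact FreeGroup.isReduced_toWord
  · obtain ⟨t, ht⟩ := ray_pfx ξ 1 n
    have h1 : (ray ξ 1).toWord = [ξ.1 1] := by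
      have := ray_word ξ 0
      rw [ray, FreeGroup.toWord_one, List.nil_append] at this
      exact this
    rw [add_comm 1 n, h1] at ht
    have h2 : ((ray ξ (n + 1))⁻¹).toWord = FreeGroup.invRev t ++ [inv' (ξ.1 1)] := by
      rw [FreeGroup.toWord_inv, ht]
      simp [FreeGroup.invRev, inv']
    unfold FreeGroup.IsReduced
    rw [List.isChain_append]
    refine ⟨FreeGroup.isReduced_toWord, FreeGroup.isReduced_toWord, ?_⟩
    intro a ha b hb
    rw [h2, List.getLast?_append, List.getLast?_singleton, Option.some_or] at ha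
    simp only [Option.mem_def, Option.some.injEq] at ha
    subst ha
    rw [reduced_iff, inv'_inv']
    rintro rfl
    exact hξ hb

theorem G_le {A : FTree N} {x : A.T} {C : ℝ} (hC : IsBCC A x C) (ξ : Bd N)
    (u : FreeGroup (Fin N)) (hξ : ξ ∈ H u) (n : ℕ) : G (lenFn A x) (ray ξ n) u ≤ C := by
  have h1 := hC.2 (ray ξ n)⁻¹ u (red_ray ξ u hξ n)
  rw [(lenFn A x).inv] at h1
  unfold G
  linarith

theorem G_ge {A : FTree N} {x : A.T} {C : ℝ} (hC : IsBCC A x C) 
    (u w : FreeGroup (Fin N)) (h : FreeGroup.IsReduced (u.toWord ++ w.toWord)) :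
    (lenFn A x).L u - C ≤ G (lenFn A x) u (u * w) := by
  have h1 := hC.2 u w h
  unfold G
  rw [inv_mul_cancel_left]
  linarith

theorem G_eq {A : FTree N} {x : A.T} {C : ℝ} (hC : IsBCC A x C) (ξ : Bd N)
    (u w : FreeGroup (Fin N)) (h : FreeGroup.IsReduced (u.toWord ++ w.toWord))
    (hu : 2 * C < (lenFn A x).L u) (hξ : ξ ∈ H u) (n : ℕ) :
    G (lenFn A x) (ray ξ n) (u * w) = G (lenFn A x) (ray ξ n) u := by
  apply G_iso
  have := G_le hC ξ u hξ n
  have := G_ge hC u w h
  linarith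

/-! ### The Gromov product of an end and a vertex -/

theorem gpv_ev {A : FTree N} {x : A.T}
    (h1 : ∀ (ξ : Bd N) (u : FreeGroup (Fin N)), ∃ n0 : ℕ, ∀ n, n0 ≤ n →
      G (lenFn A x) u (ray ξ n) = G (lenFn A x) u (ray ξ n0)) (ξ : Bd N)
    (u : FreeGroup (Fin N)) :
    Tendsto (fun n : ℕ => G (lenFn A x) (ray ξ n) u) atTop (𝓝 (gpv A x ξ u)) := by
  obtain ⟨n0, hn0⟩ := h1 ξ u
  have h2 : Tendsto (fun n : ℕ => G (lenFn A x) (ray ξ n) u) atTop
      (𝓝 (G (lenFn A x) (ray ξ n0) u)) := by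
    apply tendsto_const_nhds.congr'
    filter_upwards [eventually_ge_atTop n0] with n hn
    rw [G_comm _ (ray ξ n) u, G_comm _ (ray ξ n0) u]
    exact (hn0 n hn).symm
  have h3 : gpv A x ξ u = G (lenFn A x) (ray ξ n0) u := h2.limUnder_eq
  rw [h3]
  exact h2

theorem meas_gpv {A : FTree N} {x : A.T}
    (h1 : ∀ (ξ : Bd N) (u : FreeGroup (Fin N)), ∃ n0 : ℕ, ∀ n, n0 ≤ n →
      G (lenFn A x) u (ray ξ n) = G (lenFn A x) u (ray ξ n0)) (u : FreeGroup (Fin N)) :
    Measurable fun ξ : Bd N => gpv A x ξ u := by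
  apply measurable_of_tendsto_metrizable (f := fun (n : ℕ) (ξ : Bd N) =>
    G (lenFn A x) (ray ξ n) u)
  · intro n
    apply Continuous.measurable
    apply continuous_locally
    intro ξ
    filter_upwards [ray_locally ξ n] with ζ hζ
    rw [hζ]
  · rw [tendsto_pi_nhds]
    intro ξ
    exact gpv_ev h1 ξ u

theorem gpv_mul {A : FTree N} {x : A.T} {C : ℝ} (hC : IsBCC A x C) (ξ : Bd N)
    (u w : FreeGroup (Fin N)) (h : FreeGroup.IsReduced (u.toWord ++ w.toWord))
    (hu : 2 * C < (lenFn A x).L u) (hξ : ξ ∈ H u) : gpv A x ξ (u * w) = gpv A x ξ u := by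
  unfold gpv
  congr 1
  funext n
  exact G_eq hC ξ u w h hu hξ n

theorem toWord_mul_red {u w : FreeGroup (Fin N)}
    (h : FreeGroup.IsReduced (u.toWord ++ w.toWord)) :
    (u * w).toWord = u.toWord ++ w.toWord := by
  rw [FreeGroup.toWord_mul, h.reduce_eq]

theorem head_mul {u w : FreeGroup (Fin N)} (hu : 1 ≤ u.norm)
    (h : FreeGroup.IsReduced (u.toWord ++ w.toWord)) :
    (u * w).toWord.head? = u.toWord.head? := by
  rw [toWord_mul_red h]
  unfold FreeGroup.norm at hu
  match hw : u.toWord, hu with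
  | a :: l, _ => rfl

theorem H_mul {u w : FreeGroup (Fin N)} (hu : 1 ≤ u.norm)
    (h : FreeGroup.IsReduced (u.toWord ++ w.toWord)) : H (u * w) = H u := by
  unfold H
  rw [head_mul hu h]

/-- The integral over the ends which do not start with the first letter of `u`. -/
noncomputable def F (A : FTree N) (x : A.T) (m : Measure (Bd N)) (u : FreeGroup (Fin N)) :
    ℝ≥0∞ :=
  ∫⁻ ξ in H u, ENNReal.ofReal (Real.exp (2 * critExp A * gpv A x ξ u)) ∂m

theorem F_mul {A : FTree N} {x : A.T} {C : ℝ} (hC : IsBCC A x C) (m : Measure (Bd N))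
    (u w : FreeGroup (Fin N)) (h : FreeGroup.IsReduced (u.toWord ++ w.toWord))
    (hu1 : 1 ≤ u.norm) (hu : 2 * C < (lenFn A x).L u) : F A x m (u * w) = F A x m u := by
  unfold F
  rw [H_mul hu1 h]
  apply setLIntegral_congr_fun (isOpen_H u).measurableSet
  intro ξ hξ
  simp only
  rw [gpv_mul hC ξ u w h hu hξ]

/-! ### The rectangle -/

theorem mk_append_lt (l : List (Lt N)) (b : Lt N) :
    (FreeGroup.mk (l ++ [b]) : FreeGroup (Fin N)) = FreeGroup.mk l * lt b := by
  rw [lt, FreeGroup.mul_mk]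

theorem ray_of (ζ : Bd N) (l : List (Lt N)) : FreeGroup.IsReduced l → ∀ b, l.getLast? = some b →
    ζ.1 (FreeGroup.mk l) ≠ inv' b → ray ζ l.length = FreeGroup.mk l := by
  induction l using List.reverseRecOn with
  | nil => intro _ b hb; simp at hb
  | append_singleton l c ih =>
    intro hr b hb hne
    rw [List.getLast?_append, List.getLast?_singleton, Option.some_or] at hb
    have hb' := Option.some.inj hb
    subst hb'
    rw [mk_append_lt] at hne ⊢
    have h1 : ζ.1 (FreeGroup.mk l) = c := by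
      by_contra hc
      exact hne ((ζ.2 _ _).mpr hc)
    have h2 : ray ζ l.length = FreeGroup.mk l := by
      rcases List.eq_nil_or_concat l with h | ⟨l', b', h⟩
      · subst h; rfl
      · rw [List.concat_eq_append] at h
        unfold FreeGroup.IsReduced at hr
        rw [List.isChain_append] at hr
        have hl : l.getLast? = some b' := by rw [h]; simp
        apply ih hr.1 b' hl
        rw [h1]
        have := hr.2.2 b' hl c rfl
        rwa [reduced_iff] at this
    rw [List.length_append, List.length_singleton, ray, h2, h1]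

theorem R_eq {u : FreeGroup (Fin N)} (hu : 1 ≤ u.norm) : R u = {ζ | u⁻¹ • ζ ∈ H u⁻¹} := by
  obtain ⟨m, hm⟩ := Nat.exists_eq_add_of_le hu
  obtain ⟨l, b, hl⟩ : ∃ l b, u.toWord = l ++ [b] := by
    rcases List.eq_nil_or_concat u.toWord with h | ⟨s, b, h⟩
    · unfold FreeGroup.norm at hu
      rw [h] at hu
      simp at hu
    · exact ⟨s, b, by rw [h, List.concat_eq_append]⟩
  have hinv : (u⁻¹).toWord.head? = some (inv' b) := by
    rw [FreeGroup.toWord_inv, hl]
    simp [FreeGroup.invRev, inv']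
  have hmk : u = FreeGroup.mk (l ++ [b]) := by rw [← hl, FreeGroup.mk_toWord]
  have hlen : u.norm = (l ++ [b]).length := by unfold FreeGroup.norm; rw [hl]
  have hred : FreeGroup.IsReduced (l ++ [b]) := by rw [← hl]; exact FreeGroup.isReduced_toWord
  ext ζ
  change ray ζ u.norm = u ↔ (u⁻¹).toWord.head? ≠ some ((u⁻¹ • ζ).1 1)
  rw [hinv, Bd.smul_apply, inv_inv, mul_one, ne_eq, Option.some_inj, hlen]
  constructor
  · intro h hc
    have h1 : (ray ζ (l.length + 1)).toWord = l ++ [b] := by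
      rw [List.length_append, List.length_singleton] at h
      rw [h, hl]
    rw [ray_word] at h1
    have h2 := List.append_inj' h1 rfl
    have h3 : ζ.1 (ray ζ l.length) = b := by simpa using h2.2
    have h4 : u = ray ζ l.length * lt b := by
      rw [List.length_append, List.length_singleton, ray, h3] at h
      exact h.symm
    rw [h4] at hc
    exact ((ζ.2 _ _).mp hc.symm) h3
  · intro h
    have := ray_of ζ (l ++ [b]) hred b (by simp) (by rw [← hmk]; exact fun hc => h hc.symm)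
    rw [this, ← hmk]

theorem head_of_R {u : FreeGroup (Fin N)} (hu : 1 ≤ u.norm) {ζ : Bd N} (h : ray ζ u.norm = u) :
    u.toWord.head? = some (ζ.1 1) := by
  obtain ⟨m, hm⟩ := Nat.exists_eq_add_of_le hu
  obtain ⟨t, ht⟩ := ray_pfx ζ 1 m
  have h1 : (ray ζ 1).toWord = [ζ.1 1] := by
    have := ray_word ζ 0
    rw [ray, FreeGroup.toWord_one, List.nil_append] at this
    exact this
  rw [hm] at h
  rw [← h, ht, h1]
  rfl

theorem Cyl_eq {u : FreeGroup (Fin N)} (hu : 1 ≤ u.norm) :
    Cyl u = (fun q : Bd2 N => q.1) ⁻¹' (H u ×ˢ R u) := by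
  ext q
  change (q.1.1.1 1 ≠ q.1.2.1 1 ∧ ray q.1.2 u.norm = u) ↔
    (u.toWord.head? ≠ some (q.1.1.1 1) ∧ ray q.1.2 u.norm = u)
  apply and_congr_left
  intro h
  have : u.toWord.head? = some (q.1.2.1 1) := head_of_R hu h
  rw [this, ne_eq, ne_eq, Option.some_inj]
  exact not_congr eq_comm

theorem prod_sub {u : FreeGroup (Fin N)} (hu : 1 ≤ u.norm) :
    (H u ×ˢ R u) ⊆ Set.range (fun q : Bd2 N => q.1) := by
  rintro ⟨ξ, ζ⟩ ⟨h1, h2⟩
  refine ⟨⟨(ξ, ζ), ?_⟩, rfl⟩
  intro h
  have h3 : ξ = ζ := h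
  subst h3
  exact h1 (head_of_R hu h2)

/-- integrals over cylinders with respect to the product measure -/
theorem lint_cyl {u : FreeGroup (Fin N)} (hu : 1 ≤ u.norm) (m : Measure (Bd N)) [IsFiniteMeasure m]
    (φ : Bd N → ℝ≥0∞) (hφ : Measurable φ) :
    ∫⁻ q in Cyl u, φ q.1.1 ∂((m.prod m).comap fun q : Bd2 N => q.1) =
      (∫⁻ ξ in H u, φ ξ ∂m) * m (R u) := by
  have hS : MeasurableSet (H u ×ˢ R u : Set (Bd N × Bd N)) :=
    (isOpen_H u).measurableSet.prod (isOpen_R u).measurableSet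
  have hmC : MeasurableSet (Cyl u : Set (Bd2 N)) := by
    rw [Cyl_eq hu]
    exact emb.measurable hS
  rw [← lintegral_indicator hmC]
  have e1 : (Cyl u).indicator (fun q : Bd2 N => φ q.1.1) =
      fun q : Bd2 N => (H u ×ˢ R u).indicator (fun p : Bd N × Bd N => φ p.1) q.1 := by
    rw [Cyl_eq hu]
    rfl
  rw [e1, ← emb.lintegral_map (f := (H u ×ˢ R u).indicator (fun p : Bd N × Bd N => φ p.1)),
    emb.map_comap, lintegral_indicator hS, Measure.restrict_restrict hS,
    Set.inter_eq_left.mpr (prod_sub hu), ← Measure.prod_restrict]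
  have h2 := lintegral_prod_mul (μ := m.restrict (H u)) (ν := m.restrict (R u))
    (f := φ) (g := fun _ => 1) hφ.aemeasurable aemeasurable_const
  simp only [mul_one] at h2
  rw [h2, lintegral_one, Measure.restrict_apply_univ]

theorem buse_eq {A : FTree N} {x : A.T}
    (h1 : ∀ (ξ : Bd N) (u : FreeGroup (Fin N)), ∃ n0 : ℕ, ∀ n, n0 ≤ n →
      G (lenFn A x) u (ray ξ n) = G (lenFn A x) u (ray ξ n0)) (ζ : Bd N)
    (u : FreeGroup (Fin N)) :
    buse A ζ (u⁻¹ • x) x = (lenFn A x).L u - 2 * gpv A x ζ u⁻¹ := by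
  have h2 := (gpv_ev h1 ζ u⁻¹).const_mul 2
  have h3 := h2.const_sub ((lenFn A x).L u)
  have e : (fun n : ℕ => dist (u⁻¹ • x) (ray ζ n • x) - dist x (ray ζ n • x)) =
      fun n : ℕ => (lenFn A x).L u - 2 * G (lenFn A x) (ray ζ n) u⁻¹ := by
    funext n
    rw [G_comm, G_lenFn]
    unfold gpT
    rw [lenFn_L, dist_inv_smul]
    ring
  unfold buse
  rw [e]
  exact h3.limUnder_eq

theorem nu_R {A : FTree N} {x : A.T} {ν : A.T → Measure (Bd N)} (hν : IsPSDensity A ν)
    (h1 : ∀ (ξ : Bd N) (u : FreeGroup (Fin N)), ∃ n0 : ℕ, ∀ n, n0 ≤ n →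
      G (lenFn A x) u (ray ξ n) = G (lenFn A x) u (ray ξ n0))
    {u : FreeGroup (Fin N)} (hu : 1 ≤ u.norm) :
    ν x (R u) = ENNReal.ofReal (Real.exp (-critExp A * (lenFn A x).L u)) * F A x (ν x) u⁻¹ := by
  have hm : Measurable fun ξ : Bd N => u⁻¹ • ξ := (continuous_smul_bd u⁻¹).measurable
  have hH : MeasurableSet (H u⁻¹ : Set (Bd N)) := (isOpen_H u⁻¹).measurableSet
  have e1 : ν x (R u) = ν (u⁻¹ • x) (H u⁻¹) := by
    rw [← hν.equivariant u⁻¹ x, Measure.map_apply hm hH, R_eq hu]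
    rfl
  rw [e1, hν.conformal x (u⁻¹ • x), withDensity_apply _ hH]
  unfold F
  rw [← lintegral_const_mul]
  · apply lintegral_congr
    intro ζ
    rw [buse_eq h1, ← ENNReal.ofReal_mul (Real.exp_pos _).le, ← Real.exp_add]
    congr 2
    ring
  · apply Measurable.ennreal_ofReal
    apply Real.measurable_exp.comp
    exact (meas_gpv h1 u⁻¹).const_mul _

theorem gpBd_eq {A : FTree N} {x : A.T} {C : ℝ} (hC : IsBCC A x C)
    (h1 : ∀ (ξ : Bd N) (u : FreeGroup (Fin N)), ∃ n0 : ℕ, ∀ n, n0 ≤ n →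
      G (lenFn A x) u (ray ξ n) = G (lenFn A x) u (ray ξ n0))
    {u : FreeGroup (Fin N)} (hu : 2 * C < (lenFn A x).L u) (q : Bd2 N)
    (h2 : q.1.1 ∈ H u) (h3 : q.1.2 ∈ R u) : gpBd A x q = gpv A x q.1.1 u := by
  unfold gpBd
  apply Tendsto.limUnder_eq
  apply (gpv_ev h1 q.1.1 u).congr'
  filter_upwards [eventually_ge_atTop u.norm] with n hn
  obtain ⟨j, rfl⟩ := Nat.exists_eq_add_of_le hn
  obtain ⟨t, ht⟩ := ray_pfx q.1.2 u.norm j
  have h3' : ray q.1.2 u.norm = u := h3
  rw [h3'] at ht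
  have hr : FreeGroup.IsReduced (u.toWord ++ t) := by
    rw [← ht]; exact FreeGroup.isReduced_toWord
  have hrt : FreeGroup.IsReduced t := by
    unfold FreeGroup.IsReduced at hr
    exact (List.isChain_append.mp hr).2.1
  have hwt : (FreeGroup.mk t).toWord = t := by rw [FreeGroup.toWord_mk, hrt.reduce_eq]
  have e : ray q.1.2 (u.norm + j) = u * FreeGroup.mk t := by
    rw [← FreeGroup.mk_toWord (x := ray q.1.2 (u.norm + j)), ht, ← FreeGroup.mul_mk,
      FreeGroup.mk_toWord]
  rw [← G_lenFn, e]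
  symm
  apply G_eq hC q.1.1 u (FreeGroup.mk t) _ hu h2
  rw [hwt]
  exact hr

theorem t (h1 : S_BCL) (h2 : S_RAY) (h3 : S_MEM) (_h4 : S_CYL) : S_FRM := by
  intro N A hA μ hμ
  obtain ⟨ν, hν, c, x, hm⟩ := hμ
  obtain ⟨C, hC⟩ := h1 N A hA x
  obtain ⟨k, hk1, hk2, hk3⟩ := h3 N A hA x C hC
  have hray := (h2 N A hA x C hC).1
  have hfin := hν.finite x
  refine ⟨x, k, fun u => c * F A x (ν x) u, fun u => F A x (ν x) u⁻¹, hk1, ?_, ?_, ?_, hk3⟩
  · intro u hu
    have hu1 : 1 ≤ u.norm := hk1.trans hu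
    have hu2 := hk2 u hu
    have hS : MeasurableSet (H u ×ˢ R u : Set (Bd N × Bd N)) :=
      (isOpen_H u).measurableSet.prod (isOpen_R u).measurableSet
    have hmC : MeasurableSet (Cyl u : Set (Bd2 N)) := by
      rw [Cyl_eq hu1]
      exact emb.measurable hS
    have e1 : ∫⁻ q in Cyl u, ENNReal.ofReal (Real.exp (2 * critExp A * gpBd A x q))
          ∂(((ν x).prod (ν x)).comap fun q : Bd2 N => q.1) =
        ∫⁻ q in Cyl u, (fun ξ => ENNReal.ofReal (Real.exp (2 * critExp A * gpv A x ξ u))) q.1.1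
          ∂(((ν x).prod (ν x)).comap fun q : Bd2 N => q.1) := by
      apply setLIntegral_congr_fun hmC
      intro q hq
      rw [Cyl_eq hu1] at hq
      simp only
      rw [gpBd_eq hC hray hu2 q hq.1 hq.2]
    have hmeas : Measurable fun ξ : Bd N =>
        ENNReal.ofReal (Real.exp (2 * critExp A * gpv A x ξ u)) := by
      apply Measurable.ennreal_ofReal
      apply Real.measurable_exp.comp
      exact (meas_gpv hray u).const_mul _
    rw [hm, Measure.smul_apply, withDensity_apply _ hmC, e1,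
      lint_cyl hu1 (ν x) _ hmeas, nu_R hν hray hu1]
    rw [ENNReal.smul_def, smul_eq_mul]
    unfold F
    ring
  · intro u v hu hr
    simp only
    rw [F_mul hC (ν x) u v hr (hk1.trans hu) (hk2 u hu)]
  · intro u v hv hr
    simp only
    rw [mul_inv_rev]
    apply F_mul hC (ν x)
    · rw [FreeGroup.toWord_inv, FreeGroup.toWord_inv, ← FreeGroup.invRev_append,
        ← toWord_mul_red hr, ← FreeGroup.toWord_inv]
      exact FreeGroup.isReduced_toWord
    · rw [FreeGroup.norm_inv_eq]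
      exact hk1.trans hv
    · rw [(lenFn A x).inv]
      exact hk2 v hv

end Pool.Agent.N921.PSC.FRM
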